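import Mathlib

/-!
# An integral functional on a finitely generated group of complex numbers

Let `Γ` be a finitely generated additive group of complex numbers and `x₀ ∈ Γ`, `x₀ ≠ 0`. There is a
homomorphism `Λ` from `Γ` to the algebraic integers which respects all the linear relations with
algebraic coefficients between elements of `Γ`, with `Λ x₀ ≠ 0`.
-/

set_option autoImplicit false

namespace Pool.Agent.Y194.BL

theorem exists_functional (Γ : AddSubgroup ℂ) (hΓ : Module.Finite ℤ Γ) (x₀ : Γ) (hx₀ : x₀ ≠ 0) :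
    ∃ Λ : Γ →+ ℂ, (∀ x, IsIntegral ℤ (Λ x)) ∧ Λ x₀ ≠ 0 ∧
      ∀ {ι : Type} (s : Finset ι) (c : ι → ℂ) (x : ι → Γ), (∀ i ∈ s, IsAlgebraic ℚ (c i)) →
        ∑ i ∈ s, c i * (x i : ℂ) = 0 → ∑ i ∈ s, c i * Λ (x i) = 0 := by
  classical
  set K : IntermediateField ℚ ℂ := algebraicClosure ℚ ℂ with hK
  -- a linear functional which does not vanish at `x₀`
  have hx0' : (x₀ : ℂ) ≠ 0 := fun h => hx₀ (Subtype.ext h)
  obtain ⟨lam, hlam⟩ : ∃ lam : ℂ →ₗ[K] K, lam (x₀ : ℂ) ≠ 0 :=
    Module.Projective.exists_dual_ne_zero K hx0'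
  -- a common denominator
  obtain ⟨S, hS⟩ := hΓ.1
  have hden : ∀ y : K, ∃ d : ℤ, d ≠ 0 ∧ IsIntegral ℤ ((d : ℂ) * (y : ℂ)) := by
    intro y
    have h1 : IsAlgebraic ℚ (y : ℂ) := mem_algebraicClosure_iff.1 y.2
    have h2 : IsAlgebraic ℤ (y : ℂ) := (IsFractionRing.isAlgebraic_iff ℤ ℚ ℂ).2 h1
    obtain ⟨d, hd, h3⟩ := h2.exists_integral_multiple
    refine ⟨d, hd, ?_⟩
    rwa [zsmul_eq_mul] at h3
  choose den hden0 hden1 using hden
  set D : ℤ := ∏ g ∈ S, den (lam (g : ℂ)) with hD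
  have hD0 : D ≠ 0 := Finset.prod_ne_zero_iff.2 fun g _ => hden0 _
  have hDg : ∀ g ∈ S, IsIntegral ℤ ((D : ℂ) * ((lam (g : ℂ) : K) : ℂ)) := by
    intro g hg
    rw [hD, ← Finset.mul_prod_erase _ _ hg]
    push_cast
    rw [mul_comm (den (lam (g : ℂ)) : ℂ), mul_assoc]
    refine IsIntegral.mul ?_ (hden1 _)
    have : ((∏ x ∈ S.erase g, (den (lam (x : ℂ)) : ℂ)) : ℂ) =
        algebraMap ℤ ℂ (∏ x ∈ S.erase g, den (lam (x : ℂ))) := by
      push_cast
      rfl
    rw [this]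
    exact isIntegral_algebraMap
  let Λ : Γ →+ ℂ :=
    { toFun := fun x => (D : ℂ) * ((lam (x : ℂ) : K) : ℂ)
      map_zero' := by simp
      map_add' := fun x y => by
        rw [AddSubgroup.coe_add, map_add, IntermediateField.coe_add, mul_add] }
  refine ⟨Λ, ?_, ?_, ?_⟩
  · intro x
    have hx : x ∈ Submodule.span ℤ (S : Set Γ) := by rw [hS]; exact Submodule.mem_top
    induction hx using Submodule.span_induction with
    | mem g hg => exact hDg g hg
    | zero => rw [map_zero]; exact isIntegral_zero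
    | add x y _ _ h1 h2 => rw [map_add]; exact h1.add h2
    | smul n x _ h1 =>
      rw [map_zsmul, zsmul_eq_mul]
      exact IsIntegral.mul (isIntegral_algebraMap (x := n)) h1
  · show (D : ℂ) * ((lam (x₀ : ℂ) : K) : ℂ) ≠ 0
    refine mul_ne_zero (by exact_mod_cast hD0) fun h => hlam ?_
    exact_mod_cast h
  · intro ι s c x hc h0
    have hc' : ∀ i, ∃ d : K, i ∈ s → (d : ℂ) = c i := by
      intro i
      by_cases hi : i ∈ s
      · exact ⟨⟨c i, mem_algebraicClosure_iff.2 (hc i hi)⟩, fun _ => rfl⟩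
      · exact ⟨0, fun h => absurd h hi⟩
    choose d hd using hc'
    have h1 : ∑ i ∈ s, d i • (x i : ℂ) = 0 := by
      rw [← h0]
      refine Finset.sum_congr rfl fun i hi => ?_
      rw [← hd i hi]
      rfl
    have h2 := congrArg (fun z : ℂ => ((lam z : K) : ℂ)) h1
    simp only [map_sum, map_smul, map_zero] at h2
    have h3 : ∑ i ∈ s, c i * ((lam (x i : ℂ) : K) : ℂ) = 0 := by
      have h4 : ((∑ i ∈ s, d i • lam (x i : ℂ) : K) : ℂ) = ∑ i ∈ s, c i * ((lam (x i : ℂ) : K) : ℂ) := by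
        push_cast
        refine Finset.sum_congr rfl fun i hi => ?_
        rw [smul_eq_mul, ← hd i hi]
        push_cast
        rfl
      rw [← h4, h2]
      rfl
    calc ∑ i ∈ s, c i * ((D : ℂ) * ((lam (x i : ℂ) : K) : ℂ)) =
        (D : ℂ) * ∑ i ∈ s, c i * ((lam (x i : ℂ) : K) : ℂ) := by
          rw [Finset.mul_sum]
          exact Finset.sum_congr rfl fun i _ => by ring
      _ = 0 := by rw [h3, mul_zero]

/-- the values of an integral functional lie in a number field -/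
theorem exists_field (Γ : AddSubgroup ℂ) (hΓ : Module.Finite ℤ Γ) (Λ : Γ →+ ℂ)
    (hΛ : ∀ x, IsIntegral ℤ (Λ x)) :
    ∃ K : IntermediateField ℚ ℂ, FiniteDimensional ℚ K ∧ ∀ x, Λ x ∈ K := by
  classical
  obtain ⟨S, hS⟩ := hΓ.1
  refine ⟨IntermediateField.adjoin ℚ (S.image Λ : Set ℂ), ?_, ?_⟩
  · have : Finite ((S.image Λ : Finset ℂ) : Set ℂ) := Finite.of_fintype _
    refine IntermediateField.finiteDimensional_adjoin fun x hx => ?_
    obtain ⟨y, -, rfl⟩ := Finset.mem_image.1 (Finset.mem_coe.1 hx)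
    exact (hΛ y).tower_top
  · intro x
    have hx : x ∈ Submodule.span ℤ (S : Set Γ) := by rw [hS]; exact Submodule.mem_top
    induction hx using Submodule.span_induction with
    | mem g hg =>
      exact IntermediateField.subset_adjoin _ _
        (Finset.mem_coe.2 (Finset.mem_image_of_mem Λ (Finset.mem_coe.1 hg)))
    | zero => rw [map_zero]; exact zero_mem _
    | add x y _ _ h1 h2 => rw [map_add]; exact add_mem h1 h2
    | smul n x _ h1 => rw [map_zsmul]; exact zsmul_mem h1 n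

/-- a nonzero algebraic integer divides a nonzero integer -/
theorem exists_multiple (β : ℂ) (hβ : IsIntegral ℤ β) (h0 : β ≠ 0) :
    ∃ D : ℤ, D ≠ 0 ∧ ∃ γ : ℂ, IsIntegral ℤ γ ∧ β * γ = D := by
  obtain ⟨P, hPm, hP⟩ := hβ
  have hP0 : P ≠ 0 := hPm.ne_zero
  obtain ⟨p, hp1, hp2⟩ := Polynomial.exists_eq_pow_rootMultiplicity_mul_and_not_dvd P hP0 0
  rw [Polynomial.C_0, sub_zero] at hp1 hp2
  have h1 : Polynomial.aeval β p = 0 := by
    have h3 : Polynomial.aeval β P = 0 := hP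
    rw [hp1, map_mul, map_pow, Polynomial.aeval_X] at h3
    exact (mul_eq_zero.1 h3).resolve_left (pow_ne_zero _ h0)
  have h2 : p.coeff 0 ≠ 0 := fun h => hp2 (Polynomial.X_dvd_iff.2 h)
  refine ⟨-p.coeff 0, neg_ne_zero.2 h2, Polynomial.aeval β p.divX, ?_, ?_⟩
  · exact adjoin_le_integralClosure (show IsIntegral ℤ β from ⟨P, hPm, hP⟩)
      (Polynomial.aeval_mem_adjoin_singleton ℤ β)
  · have h3 := congrArg (Polynomial.aeval β) (Polynomial.X_mul_divX_add p)
    rw [map_add, map_mul, Polynomial.aeval_X, Polynomial.aeval_C, h1] at h3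
    have h4 : (algebraMap ℤ ℂ (p.coeff 0)) = ((p.coeff 0 : ℤ) : ℂ) := rfl
    rw [h4] at h3
    push_cast
    linear_combination h3

end Pool.Agent.Y194.BL
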