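import Pool.Agent.Y194.BL.Val

/-!
# Layers with a zero

If the coefficients of an integral combination `P(X) = ∑ aᵢ X^{kᵢ}` lie in a number field `K`, then a zero of
order `ℓ^i` has at least `φ(ℓ^i)/[K:ℚ]` conjugates, and the number of the `i` for which there is a zero of
order `ℓ^i` is at most `[K:ℚ] v_ℓ(C)`.
-/

set_option autoImplicit false

open Polynomial IntermediateField

namespace Pool.Agent.Y194.BL

/-- a root of unity has many conjugates over a number field -/
theorem conj_count (K : IntermediateField ℚ ℂ) [FiniteDimensional ℚ K] (p : K[X]) {M : ℕ}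
    (hM : 0 < M) (ξ : ℂ) (hξ : IsPrimitiveRoot ξ M) (hp : aeval ξ p = 0) :
    Nat.totient M ≤ Module.finrank ℚ K *
      ((Finset.range M).filter (fun t => Nat.Coprime t M ∧ aeval (ξ ^ t) p = 0)).card := by
  classical
  have hint : IsIntegral K ξ := (hξ.isIntegral hM).tower_top
  set q : K[X] := minpoly K ξ with hq
  have : FiniteDimensional K K⟮ξ⟯ := adjoin.finiteDimensional hint
  have : FiniteDimensional ℚ K⟮ξ⟯ := FiniteDimensional.trans ℚ K K⟮ξ⟯
  -- the degree
  have h1 : Nat.totient M ≤ Module.finrank ℚ K * q.natDegree := by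
    have h2 : Module.finrank K K⟮ξ⟯ = q.natDegree := adjoin.finrank hint
    rw [← h2, Module.finrank_mul_finrank ℚ K K⟮ξ⟯]
    have h3 := minpoly.natDegree_le (A := ℚ) (AdjoinSimple.gen K ξ)
    have h4 : minpoly ℚ (AdjoinSimple.gen K ξ) = minpoly ℚ ξ := by
      rw [← minpoly.algebraMap_eq (algebraMap K⟮ξ⟯ ℂ).injective (AdjoinSimple.gen K ξ)]
      rw [AdjoinSimple.algebraMap_gen]
    rw [h4, ← Polynomial.cyclotomic_eq_minpoly_rat hξ hM, Polynomial.natDegree_cyclotomic] at h3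
    exact h3
  refine h1.trans (Nat.mul_le_mul_left _ ?_)
  -- the roots
  have hqd : q ∣ cyclotomic M K := by
    refine minpoly.dvd K ξ ?_
    rw [aeval_def, eval₂_eq_eval_map, map_cyclotomic]
    exact hξ.isRoot_cyclotomic hM
  have hsep : q.Separable := by
    have : CharZero K := inferInstance
    exact (minpoly.irreducible hint).separable
  have hcard := Polynomial.card_rootSet_eq_natDegree (K := ℂ) hsep (IsAlgClosed.splits _)
  rw [← hcard]
  have hsub : ∀ z ∈ q.rootSet ℂ, ∃ t ∈ (Finset.range M).filter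
      (fun t => Nat.Coprime t M ∧ aeval (ξ ^ t) p = 0), ξ ^ t = z := by
    intro z hz
    have hz1 : aeval z q = 0 := aeval_eq_zero_of_mem_rootSet hz
    have hz2 : aeval z (cyclotomic M K) = 0 := by
      obtain ⟨r, hr⟩ := hqd
      rw [hr, map_mul, hz1, zero_mul]
    have hz3 : IsPrimitiveRoot z M := by
      rw [aeval_def, eval₂_eq_eval_map, map_cyclotomic] at hz2
      have : NeZero (M : ℂ) := ⟨by exact_mod_cast hM.ne'⟩
      exact (isRoot_cyclotomic_iff).1 hz2
    have : NeZero M := ⟨hM.ne'⟩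
    obtain ⟨t, ht, hco, htz⟩ := (hξ.isPrimitiveRoot_iff).1 hz3
    refine ⟨t, ?_, htz⟩
    rw [Finset.mem_filter, Finset.mem_range]
    refine ⟨ht, hco, ?_⟩
    rw [htz]
    obtain ⟨r, hr⟩ := minpoly.dvd K ξ hp
    rw [hr, map_mul, hz1, zero_mul]
  calc Fintype.card (q.rootSet ℂ) = (Finset.univ : Finset (q.rootSet ℂ)).card := rfl
    _ ≤ _ := by
      choose! t ht1 ht2 using hsub
      refine Finset.card_le_card_of_injOn (fun z : q.rootSet ℂ => t z) ?_ ?_
      · intro z _
        exact Finset.mem_coe.2 (ht1 z z.2)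
      · intro z _ z' _ h
        apply Subtype.ext
        rw [← ht2 z z.2, ← ht2 z' z'.2]
        exact congrArg (fun n => ξ ^ n) h

theorem layers {ℓ : ℕ} (hℓ : ℓ.Prime) (n : ℕ) (ζ : ℂ) (hζ : IsPrimitiveRoot ζ (ℓ ^ n)) {ι : Type}
    (s : Finset ι) (k : ι → ℕ) (a : ι → ℂ) (ha : ∀ i, IsIntegral ℤ (a i))
    (K : IntermediateField ℚ ℂ) [FiniteDimensional ℚ K] (haK : ∀ i, a i ∈ K) (C : ℤ)
    (hC : C ≠ 0) (γ : ℂ) (hγ : IsIntegral ℤ γ) (h1 : (∑ i ∈ s, a i) * γ = C) (I : Finset ℕ)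
    (hI : ∀ i ∈ I, ∃ j ∈ Finset.Ico 1 (ℓ ^ n), orderOf (ζ ^ j) = ℓ ^ i ∧
      ∑ u ∈ s, a u * (ζ ^ j) ^ k u = 0) :
    I.card ≤ Module.finrank ℚ K * padicValInt ℓ C := by
  classical
  have hpos : 0 < ℓ ^ n := pow_pos hℓ.pos _
  set J : Finset ℕ := (Finset.Ico 1 (ℓ ^ n)).filter (fun j => ∑ u ∈ s, a u * (ζ ^ j) ^ k u = 0)
    with hJ
  have h2 := count hℓ n ζ hζ s k a ha J (Finset.filter_subset _ _)
    (fun j hj => (Finset.mem_filter.1 hj).2) C hC γ hγ h1
  set A : ℕ := Module.finrank ℚ K with hA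
  have hA0 : 0 < A := Module.finrank_pos
  set P : K[X] := ∑ u ∈ s, Polynomial.C (⟨a u, haK u⟩ : K) * X ^ k u with hP
  have hPe : ∀ z : ℂ, aeval z P = ∑ u ∈ s, a u * z ^ k u := by
    intro z
    rw [hP, map_sum]
    refine Finset.sum_congr rfl fun u _ => ?_
    rw [map_mul, aeval_C, map_pow, aeval_X]
    rfl
  -- the contribution of one layer
  have h3 : ∀ i ∈ I, (1 : ℚ) / A ≤ ∑ j ∈ J.filter (fun j => orderOf (ζ ^ j) = ℓ ^ i),
      (1 : ℚ) / Nat.totient (orderOf (ζ ^ j)) := by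
    intro i hi
    obtain ⟨j, hj, hord, hz⟩ := hI i hi
    have hi0 : 0 < ℓ ^ i := pow_pos hℓ.pos _
    have hprim : IsPrimitiveRoot (ζ ^ j) (ℓ ^ i) := by
      rw [← hord]
      exact IsPrimitiveRoot.orderOf _
    have h4 := conj_count K P hi0 (ζ ^ j) hprim (by rw [hPe]; exact hz)
    set S := (Finset.range (ℓ ^ i)).filter (fun t => Nat.Coprime t (ℓ ^ i) ∧
      aeval ((ζ ^ j) ^ t) P = 0) with hS
    have h5 : S.card ≤ (J.filter (fun j => orderOf (ζ ^ j) = ℓ ^ i)).card := by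
      have hred : ∀ t : ℕ, ζ ^ (j * t % ℓ ^ n) = (ζ ^ j) ^ t := by
        intro t
        rw [← pow_mul]
        conv_rhs => rw [← Nat.mod_add_div (j * t) (ℓ ^ n), pow_add, pow_mul, hζ.pow_eq_one, one_pow,
          mul_one]
      refine Finset.card_le_card_of_injOn (fun t => j * t % ℓ ^ n) ?_ ?_
      · intro t ht
        have ht' := Finset.mem_filter.1 (Finset.mem_coe.1 ht)
        have h6 : orderOf (ζ ^ (j * t % ℓ ^ n)) = ℓ ^ i := by
          rw [hred]
          exact (hprim.pow_of_coprime t ht'.2.1).eq_orderOf.symm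
        rw [Finset.mem_coe, Finset.mem_filter, hJ, Finset.mem_filter, Finset.mem_Ico]
        refine ⟨⟨⟨?_, Nat.mod_lt _ hpos⟩, ?_⟩, h6⟩
        · by_contra h7
          have h8 : j * t % ℓ ^ n = 0 := Nat.lt_one_iff.1 (not_le.1 h7)
          rw [h8, pow_zero, orderOf_one] at h6
          rcases i with _ | i
          · -- the order of `ζ ^ j` is not one
            rw [pow_zero, orderOf_eq_one_iff] at hord
            have h9 := (hζ.pow_eq_one_iff_dvd j).1 hord
            have h10 := Nat.le_of_dvd (by have := (Finset.mem_Ico.1 hj).1; omega) h9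
            have := (Finset.mem_Ico.1 hj).2
            omega
          · exact absurd h6 (Nat.one_lt_pow (Nat.succ_ne_zero i) hℓ.one_lt).ne
        · have h7 := ht'.2.2
          rw [hPe, ← hred] at h7
          exact h7
      · intro t ht t' ht' h
        have ht1 := (Finset.mem_filter.1 (Finset.mem_coe.1 ht)).1
        have ht2 := (Finset.mem_filter.1 (Finset.mem_coe.1 ht')).1
        rw [Finset.mem_range] at ht1 ht2
        have h6 : (ζ ^ j) ^ t = (ζ ^ j) ^ t' := by
          rw [← hred, ← hred]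
          exact congrArg (fun n => ζ ^ n) h
        exact hprim.pow_inj ht1 ht2 h6
    have h6 : ∑ j ∈ J.filter (fun j => orderOf (ζ ^ j) = ℓ ^ i),
        (1 : ℚ) / Nat.totient (orderOf (ζ ^ j)) =
        ((J.filter (fun j => orderOf (ζ ^ j) = ℓ ^ i)).card : ℚ) / Nat.totient (ℓ ^ i) := by
      rw [Finset.sum_congr rfl (fun j hj => by rw [(Finset.mem_filter.1 hj).2]), Finset.sum_const,
        nsmul_eq_mul]
      ring
    rw [h6, div_le_div_iff₀ (by exact_mod_cast hA0)
      (by exact_mod_cast Nat.totient_pos.2 hi0), one_mul]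
    have h7 : Nat.totient (ℓ ^ i) ≤ A * (J.filter (fun j => orderOf (ζ ^ j) = ℓ ^ i)).card :=
      h4.trans (Nat.mul_le_mul_left _ h5)
    have h8 : ((Nat.totient (ℓ ^ i) : ℕ) : ℚ) ≤
        ((A * (J.filter (fun j => orderOf (ζ ^ j) = ℓ ^ i)).card : ℕ) : ℚ) := by exact_mod_cast h7
    push_cast at h8
    linarith
  have h4 : ∑ i ∈ I, ∑ j ∈ J.filter (fun j => orderOf (ζ ^ j) = ℓ ^ i),
      (1 : ℚ) / Nat.totient (orderOf (ζ ^ j)) ≤ ∑ j ∈ J, (1 : ℚ) / Nat.totient (orderOf (ζ ^ j)) := by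
    rw [← Finset.sum_biUnion]
    · refine Finset.sum_le_sum_of_subset_of_nonneg ?_ (fun _ _ _ => by positivity)
      intro j hj
      obtain ⟨i, -, h5⟩ := Finset.mem_biUnion.1 hj
      exact (Finset.mem_filter.1 h5).1
    · intro i _ i' _ hii
      rw [Function.onFun, Finset.disjoint_left]
      intro j hj hj'
      have h5 := (Finset.mem_filter.1 hj).2
      rw [(Finset.mem_filter.1 hj').2] at h5
      exact hii (Nat.pow_right_injective hℓ.two_le h5).symm
  have h5 := Finset.sum_le_sum h3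
  rw [Finset.sum_const, nsmul_eq_mul] at h5
  have h6 : (I.card : ℚ) * (1 / A) ≤ padicValInt ℓ C := h5.trans (h4.trans h2)
  rw [mul_one_div, div_le_iff₀ (by exact_mod_cast hA0)] at h6
  have h7 : (I.card : ℚ) ≤ ((A * padicValInt ℓ C : ℕ) : ℚ) := by
    push_cast
    linarith
  exact_mod_cast h7

end Pool.Agent.Y194.BL
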