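import Mathlib

/-!
# Zeros of integral combinations at roots of unity of prime power order

If an integral combination `P(X) = ∑ aᵢ X^{kᵢ}` of powers vanishes at the roots of unity `ζ^j`,
`j ∈ J`, where `ζ` is a primitive root of unity of order `ℓ^n` and `0 ∉ J`, and `P(1)` divides the
integer `C ≠ 0`, then `∑_{j ∈ J} 1/φ(ord ζ^j) ≤ v_ℓ(C)`.
-/

set_option autoImplicit false

open Polynomial

namespace Pool.Agent.Y194.BL

/-- the ring of algebraic integers -/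
abbrev OO : Subalgebra ℤ ℂ := integralClosure ℤ ℂ

lemma int_dvd {x y : ℤ} (hx : x ≠ 0) (h : (x : OO) ∣ (y : OO)) : x ∣ y := by
  obtain ⟨w, hw⟩ := h
  have h1 : (y : ℂ) = (x : ℂ) * (w : ℂ) := by
    have := congrArg (fun z : OO => (z : ℂ)) hw
    push_cast at this
    exact this
  have hxc : (x : ℂ) ≠ 0 := by exact_mod_cast hx
  have h2 : (w : ℂ) = algebraMap ℚ ℂ ((y : ℚ) / x) := by
    rw [map_div₀]
    simp only [map_intCast]
    field_simp
    linear_combination -h1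
  have h3 : IsIntegral ℤ (algebraMap ℚ ℂ ((y : ℚ) / x)) := h2 ▸ w.2
  rw [isIntegral_algebraMap_iff (algebraMap ℚ ℂ).injective, IsIntegrallyClosed.isIntegral_iff] at h3
  obtain ⟨z, hz⟩ := h3
  refine ⟨z, ?_⟩
  have hxq : (x : ℚ) ≠ 0 := by exact_mod_cast hx
  have h4 : (z : ℚ) = (y : ℚ) / x := hz
  field_simp at h4
  have h5 : (y : ℚ) = x * z := by linarith
  exact_mod_cast h5

lemma prime_dvd {ℓ : ℕ} (hℓ : ℓ.Prime) {i : ℕ} (ξ : OO) (hξ : IsPrimitiveRoot ξ (ℓ ^ (i + 1))) :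
    (ℓ : OO) ∣ (1 - ξ) ^ Nat.totient (ℓ ^ (i + 1)) := by
  have : Fact ℓ.Prime := ⟨hℓ⟩
  have h1 := cyclotomic_eq_prod_X_sub_primitiveRoots hξ
  have h2 := congrArg (Polynomial.eval 1) h1
  rw [eval_one_cyclotomic_prime_pow, eval_prod] at h2
  have h3 : ∀ μ ∈ primitiveRoots (ℓ ^ (i + 1)) OO, (eval 1 (X - C μ) : OO) ∣ 1 - ξ := by
    intro μ hμ
    rw [eval_sub, eval_X, eval_C]
    have hpos : 0 < ℓ ^ (i + 1) := pow_pos hℓ.pos _
    have hμ' := (mem_primitiveRoots hpos).1 hμ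
    have : NeZero (ℓ ^ (i + 1)) := ⟨hpos.ne'⟩
    obtain ⟨k, -, hk⟩ := hμ'.eq_pow_of_pow_eq_one hξ.pow_eq_one
    rw [← hk]
    have := sub_dvd_pow_sub_pow (1 : OO) μ k
    rwa [one_pow] at this
  have h4 := Finset.prod_dvd_prod_of_dvd _ _ h3
  rw [← h2, Finset.prod_const, hξ.card_primitiveRoots] at h4
  exact h4

theorem count {ℓ : ℕ} (hℓ : ℓ.Prime) (n : ℕ) (ζ : ℂ) (hζ : IsPrimitiveRoot ζ (ℓ ^ n)) {ι : Type}
    (s : Finset ι) (k : ι → ℕ) (a : ι → ℂ) (ha : ∀ i, IsIntegral ℤ (a i)) (J : Finset ℕ)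
    (hJ : J ⊆ Finset.Ico 1 (ℓ ^ n)) (hz : ∀ j ∈ J, ∑ i ∈ s, a i * (ζ ^ j) ^ k i = 0) (C : ℤ)
    (hC : C ≠ 0) (γ : ℂ) (hγ : IsIntegral ℤ γ) (h1 : (∑ i ∈ s, a i) * γ = C) :
    ∑ j ∈ J, (1 : ℚ) / Nat.totient (orderOf (ζ ^ j)) ≤ padicValInt ℓ C := by
  classical
  have : Fact ℓ.Prime := ⟨hℓ⟩
  have hpos : 0 < ℓ ^ n := pow_pos hℓ.pos _
  have hζint : IsIntegral ℤ ζ := hζ.isIntegral hpos
  set z : OO := ⟨ζ, hζint⟩ with hzd
  have hzp : IsPrimitiveRoot z (ℓ ^ n) := by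
    refine IsPrimitiveRoot.of_map_of_injective (f := OO.val) ?_ Subtype.val_injective
    exact hζ
  set P : OO[X] := ∑ i ∈ s, Polynomial.C (⟨a i, ha i⟩ : OO) * X ^ k i with hP
  have hPe : ∀ w : OO, ((P.eval w : OO) : ℂ) = ∑ i ∈ s, a i * (w : ℂ) ^ k i := by
    intro w
    rw [hP, eval_finsetSum, AddSubmonoidClass.coe_finsetSum]
    refine Finset.sum_congr rfl fun i _ => ?_
    simp
  have hP1 : ((P.eval 1 : OO) : ℂ) * γ = C := by
    rw [hPe, ← h1]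
    simp
  have hP10 : P.eval 1 ≠ 0 := by
    intro h
    rw [h] at hP1
    apply hC
    have : (C : ℂ) = 0 := by rw [← hP1]; simp
    exact_mod_cast this
  have hP0 : P ≠ 0 := by
    rintro h
    rw [h] at hP10
    simp at hP10
  have hinj : Set.InjOn (fun j => z ^ j) (J : Set ℕ) := by
    intro i hi j hj hij
    have hi' := (Finset.mem_Ico.1 (hJ hi)).2
    have hj' := (Finset.mem_Ico.1 (hJ hj)).2
    exact hzp.pow_inj hi' hj' hij
  have hdvd : ∏ j ∈ J, (X - Polynomial.C (z ^ j)) ∣ P := by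
    have h2 : (Multiset.map (fun r => X - Polynomial.C r) (J.image (fun j => z ^ j)).val).prod ∣ P := by
      rw [Multiset.prod_X_sub_C_dvd_iff_le_roots hP0]
      refine (Multiset.le_iff_subset (J.image (fun j => z ^ j)).nodup).2 ?_
      intro r hr
      have hr' : r ∈ J.image (fun j => z ^ j) := hr
      obtain ⟨j, hj, rfl⟩ := Finset.mem_image.1 hr'
      rw [mem_roots hP0, IsRoot.def]
      apply Subtype.ext
      rw [hPe]
      have := hz j hj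
      push_cast
      exact this
    have h3 : (Multiset.map (fun r => X - Polynomial.C r) (J.image (fun j => z ^ j)).val).prod =
        ∏ r ∈ J.image (fun j => z ^ j), (X - Polynomial.C r) := rfl
    rw [h3, Finset.prod_image hinj] at h2
    exact h2
  obtain ⟨Q, hQ⟩ := hdvd
  have h2 : ∏ j ∈ J, (1 - z ^ j) ∣ P.eval 1 := by
    refine ⟨Q.eval 1, ?_⟩
    rw [hQ, eval_mul, eval_prod]
    congr 1
    refine Finset.prod_congr rfl fun j _ => ?_
    simp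
  -- the orders
  have hord : ∀ j ∈ J, ∃ i : ℕ, i + 1 ≤ n ∧ orderOf (ζ ^ j) = ℓ ^ (i + 1) ∧
      IsPrimitiveRoot (z ^ j) (ℓ ^ (i + 1)) := by
    intro j hj
    have hj1 := Finset.mem_Ico.1 (hJ hj)
    have h3 : orderOf (ζ ^ j) ∣ ℓ ^ n := by
      rw [orderOf_dvd_iff_pow_eq_one, ← pow_mul, mul_comm, pow_mul, hζ.pow_eq_one, one_pow]
    obtain ⟨i, hi, h4⟩ := (Nat.dvd_prime_pow hℓ).1 h3
    rcases i with _ | i
    · exfalso
      rw [pow_zero, orderOf_eq_one_iff] at h4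
      have h5 := (hζ.pow_eq_one_iff_dvd j).1 h4
      have h6 := Nat.le_of_dvd (by omega) h5
      omega
    · refine ⟨i, hi, h4, ?_⟩
      refine IsPrimitiveRoot.of_map_of_injective (f := OO.val) ?_ Subtype.val_injective
      show IsPrimitiveRoot (ζ ^ j) (ℓ ^ (i + 1))
      rw [← h4]
      exact IsPrimitiveRoot.orderOf _
  choose! e he1 he2 he3 using hord
  set L : ℕ := Nat.totient (ℓ ^ n) with hL
  have hLpos : 0 < L := Nat.totient_pos.2 hpos
  have hLe : ∀ j ∈ J, Nat.totient (ℓ ^ (e j + 1)) ∣ L := fun j hj =>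
    Nat.totient_dvd_of_dvd (pow_dvd_pow ℓ (he1 j hj))
  set A : ℕ := ∑ j ∈ J, L / Nat.totient (ℓ ^ (e j + 1)) with hA
  have h5 : (ℓ : OO) ^ A ∣ (∏ j ∈ J, (1 - z ^ j)) ^ L := by
    rw [hA, ← Finset.prod_pow_eq_pow_sum, ← Finset.prod_pow]
    refine Finset.prod_dvd_prod_of_dvd _ _ fun j hj => ?_
    have h6 := pow_dvd_pow_of_dvd (prime_dvd hℓ _ (he3 j hj)) (L / Nat.totient (ℓ ^ (e j + 1)))
    rw [← pow_mul, Nat.mul_div_cancel' (hLe j hj)] at h6
    exact h6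
  have h6 : ((ℓ ^ A : ℤ) : OO) ∣ ((C ^ L : ℤ) : OO) := by
    have h7 : (C : OO) = P.eval 1 * ⟨γ, hγ⟩ := by
      apply Subtype.ext
      push_cast
      exact hP1.symm
    have h8 : (P.eval 1) ^ L ∣ (C : OO) ^ L := pow_dvd_pow_of_dvd ⟨_, h7⟩ L
    push_cast
    exact h5.trans ((pow_dvd_pow_of_dvd h2 L).trans h8)
  have hℓ0 : (ℓ : ℤ) ≠ 0 := by exact_mod_cast hℓ.ne_zero
  have h7 := int_dvd (pow_ne_zero A hℓ0) h6
  have h8 : A ≤ L * padicValInt ℓ C := by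
    have h9 := (padicValInt_dvd_iff A (C ^ L)).1 h7
    rcases h9 with h9 | h9
    · exact absurd h9 (pow_ne_zero _ hC)
    · have h10 : padicValInt ℓ (C ^ L) = L * padicValInt ℓ C := by
        unfold padicValInt
        rw [Int.natAbs_pow, padicValNat.pow]
      rwa [h10] at h9
  have h9 : ∑ j ∈ J, (1 : ℚ) / Nat.totient (orderOf (ζ ^ j)) = (A : ℚ) / L := by
    rw [hA]
    push_cast
    rw [Finset.sum_div]
    refine Finset.sum_congr rfl fun j hj => ?_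
    rw [he2 j hj, Nat.cast_div (hLe j hj) (by
      have : 0 < Nat.totient (ℓ ^ (e j + 1)) := Nat.totient_pos.2 (pow_pos hℓ.pos _)
      exact_mod_cast this.ne')]
    have hL0 : (L : ℚ) ≠ 0 := by exact_mod_cast hLpos.ne'
    field_simp
  rw [h9, div_le_iff₀ (by exact_mod_cast hLpos)]
  have h10 : (A : ℚ) ≤ ((L * padicValInt ℓ C : ℕ) : ℚ) := by exact_mod_cast h8
  push_cast at h10
  linarith

end Pool.Agent.Y194.BL
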